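import Mathlib

set_option autoImplicit false
set_option linter.all false

/-! # Project CL (helper718): EMB, BAI, LIN; the statements are unfolded -/

namespace Pool.Agent.Y447.CL

open MvPolynomial Cardinal

theorem card_padic (p : ℕ) [Fact p.Prime] : #ℚ_[p] ≤ continuum := by
  have h1 : #(CauSeq ℚ (padicNorm p)) ≤ continuum := by
    have h2 : Function.Injective (fun f : CauSeq ℚ (padicNorm p) => (f : ℕ → ℚ)) := by
      intro f g h
      exact Subtype.ext h
    calc #(CauSeq ℚ (padicNorm p)) ≤ #(ℕ → ℚ) := mk_le_of_injective h2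
      _ = continuum := by simp
  refine le_trans ?_ h1
  exact mk_le_of_surjective (f := fun f : CauSeq ℚ (padicNorm p) =>
    (Quotient.mk _ f : ℚ_[p])) Quotient.mk_surjective

theorem emb : ∀ (p : ℕ) [Fact p.Prime], Nonempty (ℚ_[p] →+* ℂ) := by
  intro p _
  have h1 : #(AlgebraicClosure ℚ_[p]) ≤ continuum := by
    refine (Algebra.IsAlgebraic.cardinalMk_le_max ℚ_[p] (AlgebraicClosure ℚ_[p])).trans ?_
    exact max_le (card_padic p) aleph0_le_continuum
  have h2 : continuum ≤ #(AlgebraicClosure ℚ_[p]) := by
    refine (continuum_le_cardinal_of_nontriviallyNormedField ℚ_[p]).trans ?_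
    exact mk_le_of_injective (algebraMap ℚ_[p] (AlgebraicClosure ℚ_[p])).injective
  have h3 : #(AlgebraicClosure ℚ_[p]) = #ℂ := by
    rw [Cardinal.mk_complex]
    exact le_antisymm h1 h2
  obtain ⟨e⟩ := Cardinal.eq.1 h3
  obtain ⟨f⟩ := IsAlgClosed.ringEquiv_of_equiv_of_charZero (K := AlgebraicClosure ℚ_[p]) (L := ℂ)
    (aleph0_lt_continuum.trans_le h2) ⟨e⟩
  exact ⟨f.toRingHom.comp (algebraMap ℚ_[p] (AlgebraicClosure ℚ_[p]))⟩

theorem bai : ∀ (p : ℕ) [Fact p.Prime] (κ : Type) [Fintype κ]
  (P : ℕ → MvPolynomial κ ℚ_[p]), (∀ k, P k ≠ 0) → ∃ e : κ → ℚ_[p], ∀ k, eval e (P k) ≠ 0 := by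
  classical
  intro p _ κ _ P hP
  have hd : Dense (⋂ k, {e : κ → ℚ_[p] | eval e (P k) ≠ 0}) := by
    apply dense_iInter_of_isOpen
    · intro k
      exact isOpen_ne_fun (MvPolynomial.continuous_eval (P k)) continuous_const
    · intro k e0
      obtain ⟨e1, he1⟩ : ∃ e1 : κ → ℚ_[p], eval e1 (P k) ≠ 0 := by
        by_contra hcon
        push Not at hcon
        apply hP k
        apply MvPolynomial.funext
        intro x
        rw [hcon x, map_zero]
      set Q : Polynomial ℚ_[p] := aeval (fun i => Polynomial.C (e0 i) +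
        Polynomial.X * Polynomial.C (e1 i - e0 i)) (P k) with hQ
      have hQe : ∀ u : ℚ_[p], Q.eval u = eval (fun i => e0 i + u * (e1 i - e0 i)) (P k) := by
        intro u
        rw [hQ, ← Polynomial.coe_aeval_eq_eval]
        rw [MvPolynomial.comp_aeval_apply]
        rw [← MvPolynomial.coe_aeval_eq_eval]
        simp
      have hQ0 : Q ≠ 0 := by
        intro h
        apply he1
        have h2 := hQe 1
        rw [h, Polynomial.eval_zero] at h2
        rw [h2]
        congr 2
        funext i
        ring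
      have hfin : {u : ℚ_[p] | Q.eval u = 0}.Finite := by
        refine (Q.roots.toFinset.finite_toSet).subset ?_
        intro u hu
        rw [Finset.mem_coe, Multiset.mem_toFinset, Polynomial.mem_roots hQ0]
        exact hu
      have hden : Dense ({u : ℚ_[p] | Q.eval u = 0}ᶜ) := hfin.countable.dense_compl ℚ_[p]
      have hcont : Continuous (fun u : ℚ_[p] => fun i => e0 i + u * (e1 i - e0 i)) := by
        fun_prop
      have h5 := map_mem_closure hcont (hden 0)
        (t := {e : κ → ℚ_[p] | eval e (P k) ≠ 0}) (by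
          intro u hu
          change eval (fun i => e0 i + u * (e1 i - e0 i)) (P k) ≠ 0
          rw [← hQe u]
          exact hu)
      simpa using h5
  obtain ⟨e, he⟩ := hd.nonempty
  exact ⟨e, fun k => Set.mem_iInter.1 he k⟩

theorem comp_mul {F : Type} [Field F] {κ : Type} {B : MvPolynomial κ F} {d : ℕ}
    (hB : B.IsHomogeneous d) (y : MvPolynomial κ F) (t : ℕ) :
    homogeneousComponent (d + t) (B * y) = B * homogeneousComponent t y := by
  have h1 : ∀ i, homogeneousComponent (d + t) (B * homogeneousComponent i y) =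
      if i = t then B * homogeneousComponent t y else 0 := by
    intro i
    have h2 : B * homogeneousComponent i y ∈ homogeneousSubmodule κ F (d + i) :=
      (mem_homogeneousSubmodule _ _).2 (hB.mul (homogeneousComponent_isHomogeneous i y))
    rw [homogeneousComponent_of_mem h2]
    by_cases hi : i = t
    · subst hi
      rw [if_pos rfl, if_pos rfl]
    · rw [if_neg (by omega), if_neg hi]
  conv_lhs => rw [← sum_homogeneousComponent y]
  rw [Finset.mul_sum, map_sum, Finset.sum_congr rfl fun i _ => h1 i, Finset.sum_ite_eq']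
  split_ifs with h
  · rfl
  · rw [homogeneousComponent_eq_zero t y (by
      rw [Finset.mem_range] at h
      omega), mul_zero]

theorem linear_eval {F : Type} [Field F] {κ : Type} [Fintype κ] {Q : MvPolynomial κ F}
    (hQ : Q.IsHomogeneous 1) : ∃ l : κ → F, ∀ U : κ → F, eval U Q = ∑ i, l i * U i := by
  classical
  refine ⟨fun i => coeff (Finsupp.single i 1) Q, fun U => ?_⟩
  have hQe : Q = ∑ i, C (coeff (Finsupp.single i 1) Q) * X i := by
    ext d
    rw [coeff_sum]
    simp only [coeff_C_mul, coeff_X]
    by_cases hd : d.degree = 1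
    · have h1 : d.sum (fun _ n => n) = 1 := by
        rw [← hd, Finsupp.degree_apply]; rfl
      obtain ⟨j, hj⟩ := (Finsupp.sum_eq_one_iff d).1 h1
      rw [Finset.sum_eq_single j]
      · rw [if_pos hj.symm, mul_one, hj]
      · intro i _ hij
        rw [if_neg, mul_zero]
        intro h
        rw [hj] at h
        exact hij (Finsupp.single_left_injective one_ne_zero h)
      · intro h
        exact absurd (Finset.mem_univ j) h
    · have h0 : coeff d Q = 0 := hQ.coeff_eq_zero hd
      rw [h0, Finset.sum_eq_zero]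
      intro i _
      rw [if_neg, mul_zero]
      intro h
      apply hd
      rw [← h, Finsupp.degree_single]
  conv_lhs => rw [hQe]
  simp

theorem lin : ∀ (F : Type) [Field F] (κ : Type) [Fintype κ] (B T : MvPolynomial κ F),
  B.IsHomogeneous 3 → T.IsHomogeneous 4 → B ∣ T → ∃ l : κ → F,
    ∀ U : κ → F, eval U T = (∑ i, l i * U i) * eval U B := by
  intro F _ κ _ B T hB hT ⟨Q, hQ⟩
  have h1 := comp_mul hB Q 1
  rw [← hQ] at h1
  have h2 : homogeneousComponent (3 + 1) T = T := by
    rw [homogeneousComponent_of_mem ((mem_homogeneousSubmodule _ _).2 hT), if_pos rfl]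
  obtain ⟨l, hl⟩ := linear_eval (homogeneousComponent_isHomogeneous 1 Q)
  refine ⟨l, fun U => ?_⟩
  rw [← h2, h1, map_mul, hl, mul_comm]

end Pool.Agent.Y447.CL
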